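import Mathlib
import Pool.Agent.TH119.MX.Reindex

/-!
# The period torsor of `H¹(E, {0, P₁, …, P_r}) ⊕ H¹(𝔾_m, {1, α₁, …, α_n})`

`E = ℂ/Λ` is an elliptic curve with algebraic invariants and without complex multiplication,
`P_j` is the image of `u j`, an algebraic point, and `α_i = exp (l i)` is algebraic.
-/

namespace Pool.Agent.Results.MP_5d33ca_ag.EllipticKummerMotives

open Matrix

/-- The Weierstrass `ζ` function of the lattice of `L` (the term of `0` is `1 / z`). -/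
noncomputable def zetaFn (L : PeriodPair) (z : ℂ) : ℂ :=
  ∑' l : L.lattice, (1 / (z - l) + 1 / l + z / l ^ 2)

/-- The indices of the bases: for the curve, the two closed paths and the paths to the points
(resp. the two differentials and the classes of the points); for `𝔾_m`, the circle and the paths
to the points (resp. `dz/z` and the classes of the points). -/
abbrev Idx (r n : ℕ) := (Fin 2 ⊕ Fin r) ⊕ (Fin 1 ⊕ Fin n)

/-- The block matrix with blocks `a, 0, b, 1` and `t, 0, e, 1`. -/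
def blocks {r n : ℕ} (a : Matrix (Fin 2) (Fin 2) ℂ) (b : Matrix (Fin r) (Fin 2) ℂ) (t : ℂ)
    (e : Fin n → ℂ) : Matrix (Idx r n) (Idx r n) ℂ :=
  fromBlocks (fromBlocks a 0 b 1) 0 0
    (fromBlocks (Matrix.of fun _ _ => t) 0 (Matrix.of fun i _ => e i) 1)

/-- The matrix of the comparison isomorphism. On the curve: the periods `ω_i`, the quasi-periods
`η_i = 2 ζ(ω_i / 2)` and the integrals `u_j`, `ζ(u_j)`. On `𝔾_m`: `2πi` and the logarithms. -/
noncomputable def periodMatrix (L : PeriodPair) {r n : ℕ} (u : Fin r → ℂ) (l : Fin n → ℂ) :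
    Matrix (Idx r n) (Idx r n) ℂ :=
  blocks !![L.ω₁, 2 * zetaFn L (L.ω₁ / 2); L.ω₂, 2 * zetaFn L (L.ω₂ / 2)]
    (Matrix.of fun j => ![u j, zetaFn L (u j)]) (2 * Real.pi * Complex.I) l

theorem blocks_mul {r n : ℕ} (a a' : Matrix (Fin 2) (Fin 2) ℂ) (b b' : Matrix (Fin r) (Fin 2) ℂ)
    (t t' : ℂ) (e e' : Fin n → ℂ) : blocks a b t e * blocks a' b' t' e' =
      blocks (a * a') (b * a' + b') (t * t') (fun i => e i * t' + e' i) := by
  unfold blocks
  rw [fromBlocks_multiply, fromBlocks_multiply, fromBlocks_multiply]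
  simp only [Matrix.mul_zero, Matrix.zero_mul, add_zero, zero_add, Matrix.one_mul, Matrix.mul_one]
  congr 1
  congr 1
  · ext i j
    simp [Matrix.mul_apply]
  · ext i j
    simp [Matrix.mul_apply]

theorem blocks_one {r n : ℕ} : blocks (1 : Matrix (Fin 2) (Fin 2) ℂ) (0 : Matrix (Fin r) (Fin 2) ℂ)
    1 (0 : Fin n → ℂ) = 1 := by
  unfold blocks
  have h1 : (Matrix.of fun (_ _ : Fin 1) => (1 : ℂ)) = 1 := by
    ext i j
    fin_cases i
    fin_cases j
    rfl
  have h2 : (Matrix.of fun (j : Fin n) (_ : Fin 1) => (0 : Fin n → ℂ) j) = 0 := by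
    ext i j
    rfl
  rw [h1, h2, fromBlocks_one, fromBlocks_one, fromBlocks_one]

theorem blocks_inv {r n : ℕ} {a : Matrix (Fin 2) (Fin 2) ℂ} (b : Matrix (Fin r) (Fin 2) ℂ)
    {t : ℂ} (e : Fin n → ℂ) (ha : a.det = t) (ht : t ≠ 0) :
    blocks a b t e * blocks a⁻¹ (-(b * a⁻¹)) t⁻¹ (fun i => -(e i * t⁻¹)) = 1 := by
  rw [blocks_mul, ← blocks_one]
  congr 1
  · exact Matrix.mul_nonsing_inv _ (isUnit_iff_ne_zero.2 (by rwa [ha]))
  · rw [add_neg_cancel]
  · exact mul_inv_cancel₀ ht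
  · funext i
    exact add_neg_cancel _

theorem blocks_det {r n : ℕ} (a : Matrix (Fin 2) (Fin 2) ℂ) (b : Matrix (Fin r) (Fin 2) ℂ) (t : ℂ)
    (e : Fin n → ℂ) : (blocks a b t e).det = a.det * t := by
  unfold blocks
  rw [det_fromBlocks_zero₁₂, det_fromBlocks_zero₁₂, det_fromBlocks_zero₁₂, det_one, det_one,
    mul_one, mul_one]
  congr 1
  simp

/-- The motivic Galois group: the block matrices with blocks `a, 0, b, 1` and `t, 0, e, 1` such
that `det a = t`. -/
def motivicGroup (r n : ℕ) : Subgroup (GL (Idx r n) ℂ) where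
  carrier := {g | ∃ (a : Matrix (Fin 2) (Fin 2) ℂ) (b : Matrix (Fin r) (Fin 2) ℂ) (t : ℂ)
    (e : Fin n → ℂ), a.det = t ∧ (g : Matrix (Idx r n) (Idx r n) ℂ) = blocks a b t e}
  mul_mem' := by
    rintro g g' ⟨a, b, t, e, h1, h2⟩ ⟨a', b', t', e', h3, h4⟩
    exact ⟨a * a', b * a' + b', t * t', fun i => e i * t' + e' i, by rw [det_mul, h1, h3],
      by rw [Units.val_mul, h2, h4, blocks_mul]⟩
  one_mem' := ⟨1, 0, 1, 0, det_one, blocks_one.symm⟩
  inv_mem' := by
    rintro g ⟨a, b, t, e, h1, h2⟩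
    have ht : t ≠ 0 := by
      rintro rfl
      have h3 := (Matrix.isUnit_iff_isUnit_det _).1 g.isUnit
      rw [h2, blocks_det, mul_zero] at h3
      exact not_isUnit_zero h3
    refine ⟨a⁻¹, -(b * a⁻¹), t⁻¹, fun i => -(e i * t⁻¹), ?_, ?_⟩
    · rw [Matrix.det_nonsing_inv, h1, Ring.inverse_eq_inv']
    · rw [Matrix.coe_units_inv, h2]
      exact Matrix.inv_eq_right_inv (blocks_inv b e h1 ht)

/-- A subgroup of `GL_N(ℂ)` defined by polynomials with algebraic coefficients. -/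
def IsAlgebraicSubgroup {N : Type} [Fintype N] [DecidableEq N] (H : Subgroup (GL N ℂ)) : Prop :=
  ∃ I : Set (MvPolynomial (N × N) ℂ), (∀ p ∈ I, ∀ m, IsAlgebraic ℚ (p.coeff m)) ∧
    ∀ g : GL N ℂ, g ∈ H ↔ ∀ p ∈ I, MvPolynomial.eval (fun b => (g : Matrix N N ℂ) b.1 b.2) p = 0

/-- The matrix `P` belongs to a torsor `H · A⁻¹` of `H` defined over the algebraic numbers. -/
def HasPoint {N : Type} [Fintype N] [DecidableEq N] (P : Matrix N N ℂ) (H : Subgroup (GL N ℂ)) :
    Prop :=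
  ∃ A : Matrix N N ℂ, (∀ i j, IsAlgebraic ℚ (A i j)) ∧ ∃ g ∈ H, (g : Matrix N N ℂ) = P * A

/-! ### Proof -/

section aux

open Pool.Agent.TH119.MX Pool.Agent.W245.EB H667R3

variable {r n : ℕ}

/-- The change of indices. -/
def ix (r n : ℕ) : Ix Unit (fun _ => Fin r) (Fin n) ≃ Idx r n where
  toFun := Sum.map (fun s => s.2) (Sum.map (fun _ => 0) id)
  invFun := Sum.map (fun s => ⟨(), s⟩) (Sum.map (fun _ => ()) id)
  left_inv := by
    rintro (⟨_, x⟩ | _ | _) <;> rfl
  right_inv := by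
    rintro (x | x | _)
    · rfl
    · fin_cases x
      rfl
    · rfl

theorem blocks_ix (a : Matrix (Fin 2) (Fin 2) ℂ) (b : Matrix (Fin r) (Fin 2) ℂ) (t : ℂ)
    (e : Fin n → ℂ) : (blocks a b t e).submatrix (ix r n) (ix r n) =
      bm ((fun _ => a, fun _ => b, t, e) : LT Unit (fun _ => Fin r) (Fin n)) 1 := by
  ext i j
  rcases i with ⟨⟨⟩, i⟩ | i | i <;> rcases j with ⟨⟨⟩, j⟩ | j | j
  · simp only [blocks, bm, ix, one_smul, Matrix.submatrix_apply, Equiv.coe_fn_mk, Sum.map_inl,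
      Matrix.fromBlocks_apply₁₁, Matrix.blockDiagonal'_apply_eq]
  · rfl
  · rfl
  · rfl
  · rfl
  · rfl
  · rfl
  · rfl
  · simp only [blocks, bm, ix, one_smul, Matrix.submatrix_apply, Equiv.coe_fn_mk, Sum.map_inr,
      Matrix.fromBlocks_apply₂₂, id]

theorem two_zeta (L : PeriodPair) {w : ℂ} (hw : w ∈ L.lattice) (hw2 : w / 2 ∉ L.lattice) :
    2 * zetaFn L (w / 2) = eta L w := by
  change 2 * zeta L (w / 2) = eta L w
  have h1 := zeta_add_coe L (z := -(w / 2)) (fun h => hw2 (by simpa using neg_mem h)) hw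
  have h2 : -(w / 2) + w = w / 2 := by ring
  rw [h2, zeta_neg] at h1
  linear_combination h1

theorem pE_eq (L : PeriodPair) :
    !![L.ω₁, 2 * zetaFn L (L.ω₁ / 2); L.ω₂, 2 * zetaFn L (L.ω₂ / 2)] = pE L := by
  rw [two_zeta L L.ω₁_mem_lattice L.ω₁_div_two_notMem_lattice,
    two_zeta L L.ω₂_mem_lattice L.ω₂_div_two_notMem_lattice]
  rfl

theorem period_eq (L : PeriodPair) (u : Fin r → ℂ) (hu : ∀ j, u j ∉ L.lattice) (l : Fin n → ℂ) :
    (periodMatrix L u l).submatrix (ix r n) (ix r n) = pm (perE L u l) := by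
  rw [periodMatrix, blocks_ix, pm, pE_eq]
  congr 1
  refine Prod.ext rfl (Prod.ext (funext fun _ => ?_) rfl)
  change (Matrix.of fun j => ![u j, zetaFn L (u j)]) = Matrix.of fun j => ![u j, zt L (u j)]
  congr 1
  funext j
  rw [zt_of_notMem (hu j)]
  rfl

/-- Polynomials with algebraic coefficients. -/
theorem coeff_alg {σ : Type} {p : MvPolynomial σ ℂ}
    (h : p ∈ (MvPolynomial.map (σ := σ) QB.subtype).range) (m : σ →₀ ℕ) :
    IsAlgebraic ℚ (p.coeff m) := by
  obtain ⟨q, rfl⟩ := h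
  rw [MvPolynomial.coeff_map]
  exact mem_QB.1 (Subtype.mem _)

theorem X_range {σ : Type} (s : σ) :
    MvPolynomial.X s ∈ (MvPolynomial.map (σ := σ) QB.subtype).range :=
  ⟨MvPolynomial.X s, MvPolynomial.map_X _ _⟩

theorem C_range {σ : Type} {c : ℂ} (hc : IsAlgebraic ℚ c) :
    (MvPolynomial.C c : MvPolynomial σ ℂ) ∈ (MvPolynomial.map (σ := σ) QB.subtype).range :=
  ⟨MvPolynomial.C ⟨c, mem_QB.2 hc⟩, MvPolynomial.map_C _ _⟩

theorem isAlgebraicSubgroup_motivicGroup : IsAlgebraicSubgroup (motivicGroup r n) := by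
  refine ⟨{p | (∀ m, IsAlgebraic ℚ (p.coeff m)) ∧ ∀ g ∈ motivicGroup r n,
    MvPolynomial.eval (fun b => (g : Matrix (Idx r n) (Idx r n) ℂ) b.1 b.2) p = 0},
    fun p hp => hp.1, fun g => ⟨fun hg p hp => hp.2 g hg, fun h => ?_⟩⟩
  have h1 : ∀ i j, ∀ c : ℂ, IsAlgebraic ℚ c → (∀ (a : Matrix (Fin 2) (Fin 2) ℂ)
      (b : Matrix (Fin r) (Fin 2) ℂ) (t : ℂ) (e : Fin n → ℂ), blocks a b t e i j = c) →
      (g : Matrix (Idx r n) (Idx r n) ℂ) i j = c := by
    intro i j c hc hb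
    have h2 := h (MvPolynomial.X (i, j) - MvPolynomial.C c)
      ⟨coeff_alg (sub_mem (X_range _) (C_range hc)), by
        rintro g' ⟨a, b, t, e, _, h4⟩
        rw [map_sub, MvPolynomial.eval_X, MvPolynomial.eval_C, h4, hb, sub_self]⟩
    rw [map_sub, MvPolynomial.eval_X, MvPolynomial.eval_C] at h2
    exact sub_eq_zero.1 h2
  have h0 := isAlgebraic_zero (R := ℚ) (A := ℂ)
  refine ⟨Matrix.of fun i j => (g : Matrix (Idx r n) (Idx r n) ℂ) (Sum.inl (Sum.inl i))
    (Sum.inl (Sum.inl j)), Matrix.of fun i j => (g : Matrix (Idx r n) (Idx r n) ℂ)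
    (Sum.inl (Sum.inr i)) (Sum.inl (Sum.inl j)), (g : Matrix (Idx r n) (Idx r n) ℂ)
    (Sum.inr (Sum.inl 0)) (Sum.inr (Sum.inl 0)), fun i => (g : Matrix (Idx r n) (Idx r n) ℂ)
    (Sum.inr (Sum.inr i)) (Sum.inr (Sum.inl 0)), ?_, ?_⟩
  · have h2 := h (MvPolynomial.X (Sum.inl (Sum.inl 0), Sum.inl (Sum.inl 0)) *
      MvPolynomial.X (Sum.inl (Sum.inl 1), Sum.inl (Sum.inl 1)) -
      MvPolynomial.X (Sum.inl (Sum.inl 0), Sum.inl (Sum.inl 1)) *
      MvPolynomial.X (Sum.inl (Sum.inl 1), Sum.inl (Sum.inl 0)) -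
      MvPolynomial.X (Sum.inr (Sum.inl 0), Sum.inr (Sum.inl 0)))
      ⟨coeff_alg (sub_mem (sub_mem (mul_mem (X_range _) (X_range _))
        (mul_mem (X_range _) (X_range _))) (X_range _)), by
        rintro g' ⟨a, b, t, e, h3, h4⟩
        simp only [map_sub, map_mul, MvPolynomial.eval_X]
        rw [h4]
        rw [Matrix.det_fin_two] at h3
        exact sub_eq_zero.2 h3⟩
    simp only [map_sub, map_mul, MvPolynomial.eval_X] at h2
    rw [Matrix.det_fin_two]
    exact sub_eq_zero.1 h2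
  · ext i j
    rcases i with (i | i) | (i | i) <;> rcases j with (j | j) | (j | j)
    · rfl
    · exact h1 _ _ 0 h0 fun _ _ _ _ => rfl
    · exact h1 _ _ 0 h0 fun _ _ _ _ => rfl
    · exact h1 _ _ 0 h0 fun _ _ _ _ => rfl
    · rfl
    · refine h1 _ _ ((1 : Matrix (Fin r) (Fin r) ℂ) i j) ?_ fun _ _ _ _ => rfl
      rw [Matrix.one_apply]
      split_ifs
      · exact isAlgebraic_one
      · exact h0
    · exact h1 _ _ 0 h0 fun _ _ _ _ => rfl
    · exact h1 _ _ 0 h0 fun _ _ _ _ => rfl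
    · exact h1 _ _ 0 h0 fun _ _ _ _ => rfl
    · exact h1 _ _ 0 h0 fun _ _ _ _ => rfl
    · fin_cases i
      fin_cases j
      rfl
    · exact h1 _ _ 0 h0 fun _ _ _ _ => rfl
    · exact h1 _ _ 0 h0 fun _ _ _ _ => rfl
    · exact h1 _ _ 0 h0 fun _ _ _ _ => rfl
    · fin_cases j
      rfl
    · refine h1 _ _ ((1 : Matrix (Fin n) (Fin n) ℂ) i j) ?_ fun _ _ _ _ => rfl
      rw [Matrix.one_apply]
      split_ifs
      · exact isAlgebraic_one
      · exact h0

/-- The relation of Legendre: the comparison isomorphism belongs to the motivic torsor. -/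
theorem hasPoint_motivicGroup (L : PeriodPair) (u : Fin r → ℂ) (l : Fin n → ℂ) :
    HasPoint (periodMatrix L u l) (motivicGroup r n) := by
  obtain ⟨m, hm⟩ := legendre_int L
  have hpi : (2 * Real.pi * Complex.I : ℂ) ≠ 0 := Complex.two_pi_I_ne_zero
  have hm0 : (m : ℂ) ≠ 0 := by
    intro h
    rw [h, zero_mul] at hm
    exact pE_det_ne L hm
  have hmul : periodMatrix L u l * blocks !![1, 0; 0, (m : ℂ)⁻¹] 0 1 0 =
      blocks (pE L * !![1, 0; 0, (m : ℂ)⁻¹])
        ((Matrix.of fun j => ![u j, zetaFn L (u j)]) * !![1, 0; 0, (m : ℂ)⁻¹])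
        (2 * Real.pi * Complex.I) l := by
    rw [periodMatrix, blocks_mul, pE_eq, add_zero, mul_one]
    congr 1
    funext i
    rw [mul_one]
    exact add_zero _
  have hdet : (pE L * !![1, 0; 0, (m : ℂ)⁻¹]).det = 2 * Real.pi * Complex.I := by
    rw [det_mul, hm, Matrix.det_fin_two_of]
    field_simp
    ring
  have h0 := isAlgebraic_zero (R := ℚ) (A := ℂ)
  have h1 := isAlgebraic_one (R := ℚ) (A := ℂ)
  refine ⟨blocks !![1, 0; 0, (m : ℂ)⁻¹] 0 1 0, ?_, ?_⟩
  · intro i j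
    have hone : ∀ {α : Type} [DecidableEq α] (i j : α), IsAlgebraic ℚ ((1 : Matrix α α ℂ) i j) := by
      intro α _ i j
      rw [Matrix.one_apply]
      split_ifs
      · exact h1
      · exact h0
    rcases i with (i | i) | (i | i) <;> rcases j with (j | j) | (j | j)
    · change IsAlgebraic ℚ ((!![1, 0; 0, (m : ℂ)⁻¹] : Matrix (Fin 2) (Fin 2) ℂ) i j)
      fin_cases i <;> fin_cases j
      · exact h1
      · exact h0
      · exact h0
      · exact (isAlgebraic_intCast m).inv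
    · exact h0
    · exact h0
    · exact h0
    · exact h0
    · exact hone i j
    · exact h0
    · exact h0
    · exact h0
    · exact h0
    · exact h1
    · exact h0
    · exact h0
    · exact h0
    · exact h0
    · exact hone i j
  · rw [hmul]
    refine ⟨⟨_, _, blocks_inv _ l hdet hpi, ?_⟩, ⟨_, _, _, _, hdet, rfl⟩, rfl⟩
    exact mul_eq_one_comm.1 (blocks_inv _ l hdet hpi)

theorem le_of_hasPoint (L : PeriodPair) (h2 : IsAlgebraic ℚ L.g₂) (h3 : IsAlgebraic ℚ L.g₃)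
    (hcm : ∀ a : ℂ, (∀ w ∈ L.lattice, a * w ∈ L.lattice) → ∃ m : ℤ, a = m)
    (u : Fin r → ℂ) (hu : ∀ j, IsAlgebraic ℚ (L.weierstrassP (u j)))
    (hui : LinearIndependent ℚ (Sum.elim ![L.ω₁, L.ω₂] u))
    (l : Fin n → ℂ) (hl : ∀ i, IsAlgebraic ℚ (Complex.exp (l i)))
    (hli : LinearIndependent ℚ (Sum.elim ![2 * Real.pi * Complex.I] l))
    (H : Subgroup (GL (Idx r n) ℂ)) (hH : IsAlgebraicSubgroup H)
    (hP : HasPoint (periodMatrix L u l) H) : motivicGroup r n ≤ H := by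
  classical
  obtain ⟨A, hA, g₀, hg₀, hg₀A⟩ := hP
  have huL : ∀ j, u j ∉ L.lattice := by
    intro j hj
    obtain ⟨x, y, hxy⟩ := PeriodPair.mem_lattice.1 hj
    have h4 := Fintype.linearIndependent_iff.1 hui (Sum.elim ![(x : ℚ), y] (Pi.single j (-1))) (by
      rw [Fintype.sum_sum_type, Fin.sum_univ_two, Finset.sum_eq_single j]
      · simp only [Sum.elim_inl, Sum.elim_inr, Matrix.cons_val_zero, Matrix.cons_val_one,
          Rat.smul_def, Pi.single_eq_same]
        rw [← hxy]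
        push_cast
        ring
      · intro k _ hk
        rw [Sum.elim_inr, Pi.single_eq_of_ne hk, zero_smul]
      · intro hk
        exact absurd (Finset.mem_univ _) hk) (Sum.inr j)
    rw [Sum.elim_inr, Pi.single_eq_same] at h4
    norm_num at h4
  have hAG : AlgGrp QB (setOf' (ix r n) H) := by
    refine algGrp_setOf' _ ?_
    obtain ⟨I, h4, h5⟩ := hH
    exact ⟨I, fun p hp m => mem_QB.2 (h4 p hp m), h5⟩
  -- the matrix `A` is invertible
  have hdetA : A.det ≠ 0 := by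
    intro h
    have h4 := (Matrix.isUnit_iff_isUnit_det _).1 g₀.isUnit
    rw [hg₀A, det_mul, h, mul_zero] at h4
    exact not_isUnit_zero h4
  have hAA : A * A⁻¹ = 1 := Matrix.mul_nonsing_inv _ (isUnit_iff_ne_zero.2 hdetA)
  intro g hg
  obtain ⟨a, b, t, e, h4, h5⟩ := hg
  have ht : t ≠ 0 := by
    rintro rfl
    have h3 := (Matrix.isUnit_iff_isUnit_det _).1 g.isUnit
    rw [h5, blocks_det, mul_zero] at h3
    exact not_isUnit_zero h3
  have hmain := grp_main (D := perE L u l) (F := QB) (K := QB) (H := setOf' (ix r n) H)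
    (A := A.submatrix (ix r n) (ix r n)) (A' := A⁻¹.submatrix (ix r n) (ix r n)) hAG le_rfl
    (fun x => mem_QB.symm) (leg_perE u l)
    (indep_perE h2 h3 hcm u (fun j => Or.inr (hu j)) hui l hl hli)
    (by rw [Matrix.submatrix_mul_equiv, hAA, Matrix.submatrix_one_equiv])
    (fun i j => inv_entries (fun i j => mem_QB.2 (hA i j)) _ _)
    (by
      rw [← period_eq L u huL l, Matrix.submatrix_mul_equiv, ← hg₀A]
      exact ⟨g₀, hg₀, rfl⟩)
    (fun d hd c c' hcc => absurd (Subsingleton.elim c c') hcc)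
    (x := (fun _ => a, fun _ => b, t, e)) (fun _ => h4) ht
  obtain ⟨g', hg', h6⟩ := hmain
  rw [← blocks_ix, ← h5] at h6
  have h7 : g' = g := by
    ext i j
    have := congrFun (congrFun h6 ((ix r n).symm i)) ((ix r n).symm j)
    simpa using this
  rw [← h7]
  exact hg'

end aux

/-- **Theorem.** Let `Λ` be a lattice with algebraic invariants `g₂, g₃` and without complex
multiplication, let `u j` be elliptic logarithms of algebraic points, and let `exp (l i)` be
algebraic. Suppose that `ω₁, ω₂, u j` are linearly independent over `ℚ`, and that `2πi, l i` are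
linearly independent over `ℚ`. Then the motivic Galois group is the smallest algebraic subgroup `H`
of `GL_N`, defined over the algebraic numbers, such that the comparison isomorphism belongs to a
torsor of `H` defined over the algebraic numbers. -/
theorem result (L : PeriodPair) (h2 : IsAlgebraic ℚ L.g₂) (h3 : IsAlgebraic ℚ L.g₃)
    (hcm : ∀ a : ℂ, (∀ w ∈ L.lattice, a * w ∈ L.lattice) → ∃ m : ℤ, a = m)
    {r n : ℕ} (u : Fin r → ℂ) (hu : ∀ j, IsAlgebraic ℚ (L.weierstrassP (u j)))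
    (hui : LinearIndependent ℚ (Sum.elim ![L.ω₁, L.ω₂] u))
    (l : Fin n → ℂ) (hl : ∀ i, IsAlgebraic ℚ (Complex.exp (l i)))
    (hli : LinearIndependent ℚ (Sum.elim ![2 * Real.pi * Complex.I] l)) :
    IsLeast {H : Subgroup (GL (Idx r n) ℂ) | IsAlgebraicSubgroup H ∧
      HasPoint (periodMatrix L u l) H} (motivicGroup r n) :=
  ⟨⟨isAlgebraicSubgroup_motivicGroup, hasPoint_motivicGroup L u l⟩,
    fun H hH => le_of_hasPoint L h2 h3 hcm u hu hui l hl hli H hH.1 hH.2⟩

end Pool.Agent.Results.MP_5d33ca_ag.EllipticKummerMotives
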