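import Mathlib
import Pool.Agent.TH812.SF.Exp
import Pool.Agent.H340R2.LW

/-!
# Periods of Kummer motives: multilinear relations between logarithms, over `ℚ̄[2πi]`

The periods of the Nori motive `H^1(𝔾_m, {1, α_1, ..., α_k})` are, up to integers, `2πi` and
logarithms of `α_1, ..., α_k`; if the `α_j` are multiplicatively independent, the period conjecture
states that these `k + 1` numbers are algebraically independent.

Let `α_1, ..., α_n` be any multiplicatively independent algebraic numbers and `λ_i` logarithms of the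
`α_i`.  For all but `K n ^ (k - 1)` of the `n ^ k` tuples `s`, the periods `2πi`, `λ_(s 1)`, ...,
`λ_(s k)` of the motive `H^1(𝔾_m, {1, α_(s 1), ..., α_(s k)})` satisfy no nontrivial polynomial
relation with algebraic coefficients, of degree at most `D` in `2πi` and of degree at most one in
each of the logarithms.  More generally, this holds with `2πi` replaced by `r` numbers which satisfy
no nontrivial polynomial relation of degree at most `D`, such as algebraically independent periods
of another motive `M₀` (then the statement concerns the periods of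
`M₀ ⊕ H^1(𝔾_m, {1, α_(s 1), ..., α_(s k)})`).

The proof combines the hyperplane case of the linear subgroup theorem of Waldschmidt and Roy
(proved in the starting files `Pool.Agent.W254.HP`), Baker's theorem (`Pool.Agent.H297R2`) and an
induction on the length of the tuple (`Good`, `Dens`).
-/

set_option autoImplicit false

namespace Pool.Agent.Results.MP_5d33ca_ag.KummerMotives

/-- The numbers `t i` satisfy no nonzero polynomial relation of total degree at most `D` with
algebraic coefficients. -/
def Indep (D : ℕ) {r : ℕ} (t : Fin r → ℂ) : Prop :=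
  ∀ P : MvPolynomial (Fin r) (algebraicClosure ℚ ℂ), P.totalDegree ≤ D →
    MvPolynomial.aeval t P = 0 → P = 0

/-- A polynomial `P(T, Y)` with algebraic coefficients, of total degree at most `D` in the variables
`T` and of degree at most one in each of the variables `Y`, is written as
`∑_A Q_A(T) ∏_{j ∈ A} Y_j`; if it vanishes at `(t, y)` then it is zero. -/
def MultilinearIndep (D : ℕ) {r k : ℕ} (t : Fin r → ℂ) (y : Fin k → ℂ) : Prop :=
  ∀ Q : Finset (Fin k) → MvPolynomial (Fin r) (algebraicClosure ℚ ℂ),
    (∀ A, (Q A).totalDegree ≤ D) →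
    ∑ A, MvPolynomial.aeval t (Q A) * ∏ j ∈ A, y j = 0 → ∀ A, Q A = 0

/-- The complex numbers `α i` are algebraic, nonzero and multiplicatively independent. -/
def MulIndep {n : ℕ} (α : Fin n → ℂ) : Prop :=
  (∀ i, IsAlgebraic ℚ (α i)) ∧ (∀ i, α i ≠ 0) ∧
    ∀ m : Fin n → ℤ, ∏ i, α i ^ m i = 1 → m = 0

open Pool.Agent.TH812.SF Pool.Agent.H301R2.SSE

/-- Logarithms of multiplicatively independent numbers are linearly independent. -/
theorem indep_log {n : ℕ} (α : Fin n → ℂ) (hα : MulIndep α) (l : Fin n → ℂ)
    (hl : ∀ i, Complex.exp (l i) = α i) : LinearIndependent ℚ l := by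
  rw [← LinearIndependent.iff_fractionRing ℤ ℚ, Fintype.linearIndependent_iff]
  intro m hm
  have h1 : ∏ i, α i ^ m i = 1 := by
    have h2 : Complex.exp (∑ i, m i • l i) = ∏ i, α i ^ m i := by
      rw [Complex.exp_sum]
      refine Finset.prod_congr rfl fun i _ => ?_
      rw [zsmul_eq_mul, Complex.exp_int_mul, hl]
    rw [← h2, hm, Complex.exp_zero]
  have h3 := hα.2.2 m h1
  intro i
  rw [h3]
  rfl

open Classical in
theorem main (r k D : ℕ) :
    ∃ K : ℕ, ∀ t : Fin r → ℂ, Indep D t →
      ∀ (n : ℕ) (l : Fin n → ℂ), (∀ i, IsAlgebraic ℚ (Complex.exp (l i))) →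
      LinearIndependent ℚ l →
        (Finset.univ.filter fun s : Fin k → Fin n =>
          ¬ MultilinearIndep D t fun j => l (s j)).card * n ≤ K * n ^ k := by
  obtain ⟨K, hK⟩ := main_good k (Module.finrank (algebraicClosure ℚ ℂ)
    (MvPolynomial.restrictTotalDegree (Fin r) (algebraicClosure ℚ ℂ) D)) 0
  refine ⟨K, fun t ht n l halg hli => ?_⟩
  refine le_trans ?_ (hK n l halg hli (fun i : Fin 0 => i.elim0) (vals D t)
    (vals_fin D t) (vals_finrank D t) (vals_one D t))
  apply Nat.mul_le_mul_right
  apply Finset.card_le_card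
  intro s hs
  rw [Finset.mem_filter] at hs ⊢
  refine ⟨hs.1, fun hG => hs.2 ?_⟩
  intro Q hQ hsum
  have hmem : ∑ A, MvPolynomial.aeval t (Q A) * mon l s A ∈
      Lt ⊔ Submodule.span QB (Set.range fun i : Fin 0 => (i.elim0 : ℂ)) := by
    have h0 : ∑ A, MvPolynomial.aeval t (Q A) * mon l s A = 0 := hsum
    rw [h0]
    exact Submodule.zero_mem _
  obtain ⟨h1, h2⟩ := hG.1 (fun A => MvPolynomial.aeval t (Q A))
    (fun A => vals_mem D t (Q A) (hQ A)) hmem
  -- the linear coefficients are algebraic
  have h3 : ∀ j, ∃ c : QB, (c : ℂ) = MvPolynomial.aeval t (Q {j}) := by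
    intro j
    obtain ⟨c, hc⟩ := Submodule.mem_one.mp (h2 j)
    exact ⟨c, hc⟩
  choose c hc using h3
  have h4 : ∑ A, MvPolynomial.aeval t (Q A) * mon l s A =
      MvPolynomial.aeval t (Q ∅) + ∑ j, (c j : ℂ) * l (s j) := by
    have h5 : ∑ j, (c j : ℂ) * l (s j) =
        ∑ A ∈ Finset.univ.image (fun j : Fin k => ({j} : Finset (Fin k))),
          MvPolynomial.aeval t (Q A) * mon l s A := by
      rw [Finset.sum_image (fun a _ b _ h => Finset.singleton_injective h)]
      refine Finset.sum_congr rfl fun j _ => ?_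
      rw [← hc j]
      simp [mon]
    have h6 : MvPolynomial.aeval t (Q ∅) =
        ∑ A ∈ {(∅ : Finset (Fin k))}, MvPolynomial.aeval t (Q A) * mon l s A := by
      rw [Finset.sum_singleton]
      simp [mon]
    rw [h5, h6, ← Finset.sum_union]
    · symm
      apply Finset.sum_subset (Finset.subset_univ _)
      intro A _ hA
      rw [Finset.mem_union, Finset.mem_singleton, Finset.mem_image] at hA
      push Not at hA
      have hA2 : 2 ≤ A.card := by
        by_contra hcon
        have h7 : A.card = 0 ∨ A.card = 1 := by omega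
        rcases h7 with h7 | h7
        · exact hA.1.ne_empty (Finset.card_eq_zero.mp h7)
        · obtain ⟨j, hj⟩ := Finset.card_eq_one.mp h7
          exact hA.2 j (Finset.mem_univ _) hj.symm
      rw [h1 A hA2, zero_mul]
    · rw [Finset.disjoint_singleton_left, Finset.mem_image]
      rintro ⟨j, -, hj⟩
      exact Finset.singleton_ne_empty j hj
  have h5 : MvPolynomial.aeval t (Q ∅) + ∑ j, (c j : ℂ) * l (s j) = 0 := by
    rw [← h4]
    exact hsum
  have h6 : c = 0 := by
    apply hG.2 c
    have h7 : ∑ i, algebraMap QB ℂ (c i) * l (s i) = -MvPolynomial.aeval t (Q ∅) := by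
      rw [eq_neg_iff_add_eq_zero, add_comm]
      exact h5
    rw [h7]
    exact Submodule.neg_mem _ (vals_mem D t (Q ∅) (hQ ∅))
  intro A
  by_cases hA2 : 2 ≤ A.card
  · exact ht (Q A) (hQ A) (h1 A hA2)
  · have h7 : A.card = 0 ∨ A.card = 1 := by omega
    rcases h7 with h7 | h7
    · rw [Finset.card_eq_zero.mp h7]
      apply ht _ (hQ _)
      rw [h6] at h5
      simpa using h5
    · obtain ⟨j, rfl⟩ := Finset.card_eq_one.mp h7
      apply ht _ (hQ _)
      rw [← hc j, h6]
      rfl

/-- Lindemann's theorem in the form used here. -/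
theorem indep_two_pi_I (D : ℕ) (t : Fin 0 → ℂ) :
    Indep D (Fin.cons (2 * Real.pi * Complex.I) t : Fin 1 → ℂ) := by
  have h0 : Transcendental ℚ (2 * Real.pi * Complex.I : ℂ) := by
    intro h2
    apply Pool.Agent.H340R2.LW.transcendental_pi_complex
    have h3 : IsAlgebraic ℚ (2 * Complex.I : ℂ) :=
      (isAlgebraic_natCast 2).mul Pool.Agent.H340R2.LW.isAlgebraic_I
    have h4 : (Real.pi : ℂ) = (2 * Real.pi * Complex.I) * (2 * Complex.I)⁻¹ := by
      field_simp
    rw [h4]
    exact h2.mul h3.inv
  have h2 : (Fin.cons (2 * Real.pi * Complex.I) t : Fin 1 → ℂ) =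
      fun _ => (2 * Real.pi * Complex.I : ℂ) := by
    funext i
    have hi : i = (0 : Fin (0 + 1)) := Fin.ext (by have := i.2; omega)
    rw [hi]
    rfl
  have h1 : AlgebraicIndependent (algebraicClosure ℚ ℂ)
      (fun _ : Fin 1 => (2 * Real.pi * Complex.I : ℂ)) := by
    rw [algebraicIndependent_unique_type_iff]
    intro h
    apply h0
    have : Algebra.IsAlgebraic ℚ (algebraicClosure ℚ ℂ) := algebraicClosure.isAlgebraic ℚ ℂ
    exact h.restrictScalars ℚ
  rw [h2]
  intro P _ hP
  exact (algebraicIndependent_iff.mp h1) P hP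

open Classical in
/-- **Main result.** -/
theorem result (r k D : ℕ) :
    ∃ K : ℕ, ∀ t : Fin r → ℂ,
      (r = 0 ∨ Indep D (Fin.cons (2 * Real.pi * Complex.I) t : Fin (r + 1) → ℂ)) →
      ∀ (n : ℕ) (α : Fin n → ℂ), MulIndep α → ∀ l : Fin n → ℂ,
        (∀ i, Complex.exp (l i) = α i) →
        (Finset.univ.filter fun s : Fin k → Fin n =>
          ¬ MultilinearIndep D (Fin.cons (2 * Real.pi * Complex.I) t : Fin (r + 1) → ℂ)
            fun j => l (s j)).card * n ≤ K * n ^ k := by
  obtain ⟨K, hK⟩ := main (r + 1) k D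
  refine ⟨K, fun t ht n α hα l hl => hK _ ?_ n l (fun i => ?_) (indep_log α hα l hl)⟩
  · rcases ht with rfl | ht
    · exact indep_two_pi_I D t
    · exact ht
  · rw [hl]
    exact hα.1 i

end Pool.Agent.Results.MP_5d33ca_ag.KummerMotives
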