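import Mathlib
import Pool.Agent.TH119.PL.Main

/-!
# The period torsor of the polylogarithm motives

For an algebraic number `z ≠ 0, 1` the polylogarithm motive of weight `n` is the mixed Tate motive
(a quotient of the motivic path torsor of the projective line minus three points from `0` to `z`)
whose period matrix, with rows given by the paths and columns given by the forms, is
```
  1  Li_1(z)  Li_2(z)     …  Li_n(z)
  0  2πi      2πi log z   …  2πi log^(n-1) z / (n-1)!
  0  0        (2πi)^2     …  (2πi)^2 log^(n-2) z / (n-2)!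
  …
  0  0        0           …  (2πi)^n
```
We consider the direct sum of these motives for finitely many numbers `z`.
-/

namespace Pool.Agent.Results.MP_5d33ca_ag.PolylogarithmMotives

open Matrix
open scoped Nat

/-- The matrix with the first row `1, v_1, …, v_n` and, for `1 ≤ i ≤ j ≤ n`, the entries
`t ^ i * x ^ (j - i) / (j - i)!` below it (the index `i` of `Fin n` stands for `i + 1`). -/
noncomputable def polyBlock {n : ℕ} (t x : ℂ) (v : Fin n → ℂ) :
    Matrix (Unit ⊕ Fin n) (Unit ⊕ Fin n) ℂ :=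
  fromBlocks 1 (Matrix.of fun _ j => v j) 0
    (Matrix.of fun i j => if i ≤ j then t ^ ((i : ℕ) + 1) * x ^ ((j : ℕ) - i) /
      (((j : ℕ) - i)! : ℂ) else 0)

/-- The indices of the bases: one block for every point. -/
abbrev Idx (m n : ℕ) := (Unit ⊕ Fin n) × Fin m

/-- The block diagonal matrix with the blocks `polyBlock t (x a) (v a)`. -/
noncomputable def polyMatrix {m n : ℕ} (t : ℂ) (x : Fin m → ℂ) (v : Fin m → Fin n → ℂ) :
    Matrix (Idx m n) (Idx m n) ℂ :=
  blockDiagonal fun a => polyBlock t (x a) (v a)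

theorem polyMatrix_eq {m n : ℕ} (t : ℂ) (x : Fin m → ℂ) (v : Fin m → Fin n → ℂ) :
    polyMatrix t x v = Pool.Agent.TH119.PL.gm t x v := rfl

theorem polyMatrix_mul {m n : ℕ} (t t' : ℂ) (x x' : Fin m → ℂ) (v v' : Fin m → Fin n → ℂ) :
    ∃ (x'' : Fin m → ℂ) (v'' : Fin m → Fin n → ℂ),
      polyMatrix t x v * polyMatrix t' x' v' = polyMatrix (t * t') x'' v'' :=
  ⟨_, _, Pool.Agent.TH119.PL.gm_mul t t' x x' v v'⟩

theorem polyMatrix_inv {m n : ℕ} {t : ℂ} (ht : t ≠ 0) (x : Fin m → ℂ) (v : Fin m → Fin n → ℂ) :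
    ∃ (x' : Fin m → ℂ) (v' : Fin m → Fin n → ℂ),
      polyMatrix t x v * polyMatrix t⁻¹ x' v' = 1 :=
  ⟨_, _, Pool.Agent.TH119.PL.gm_inv ht x v⟩

/-- The motivic Galois group: all matrices `polyMatrix t x v`, `t ≠ 0`. -/
def motivicGroup (m n : ℕ) : Subgroup (GL (Idx m n) ℂ) where
  carrier := {g | ∃ (t : ℂ) (x : Fin m → ℂ) (v : Fin m → Fin n → ℂ),
    t ≠ 0 ∧ (g : Matrix (Idx m n) (Idx m n) ℂ) = polyMatrix t x v}
  mul_mem' := by
    rintro g g' ⟨t, x, v, h1, h2⟩ ⟨t', x', v', h3, h4⟩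
    obtain ⟨x'', v'', h5⟩ := polyMatrix_mul t t' x x' v v'
    exact ⟨t * t', x'', v'', mul_ne_zero h1 h3, by rw [Units.val_mul, h2, h4, h5]⟩
  one_mem' := ⟨1, 0, 0, one_ne_zero, Pool.Agent.TH119.PL.gm_one.symm⟩
  inv_mem' := by
    rintro g ⟨t, x, v, h1, h2⟩
    obtain ⟨x', v', h3⟩ := polyMatrix_inv h1 x v
    refine ⟨t⁻¹, x', v', inv_ne_zero h1, ?_⟩
    rw [Matrix.coe_units_inv, h2]
    exact Matrix.inv_eq_right_inv h3

/-- A subgroup of `GL_N(ℂ)` defined by polynomials with algebraic coefficients. -/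
def IsAlgebraicSubgroup {N : Type} [Fintype N] [DecidableEq N] (H : Subgroup (GL N ℂ)) : Prop :=
  ∃ I : Set (MvPolynomial (N × N) ℂ), (∀ p ∈ I, ∀ m, IsAlgebraic ℚ (p.coeff m)) ∧
    ∀ g : GL N ℂ, g ∈ H ↔ ∀ p ∈ I, MvPolynomial.eval (fun b => (g : Matrix N N ℂ) b.1 b.2) p = 0

/-- The matrix `P` belongs to a torsor `H · A⁻¹` of `H` defined over the algebraic numbers. -/
def HasPoint {N : Type} [Fintype N] [DecidableEq N] (P : Matrix N N ℂ) (H : Subgroup (GL N ℂ)) :
    Prop :=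
  ∃ A : Matrix N N ℂ, (∀ i j, IsAlgebraic ℚ (A i j)) ∧ ∃ g ∈ H, (g : Matrix N N ℂ) = P * A

/-! ### Proof -/

section aux

open Pool.Agent.TH119.MX Pool.Agent.TH119.PL Pool.Agent.W245.EB H667R3

variable {m n : ℕ}

/-- Polynomials with algebraic coefficients. -/
theorem coeff_alg {σ : Type} {p : MvPolynomial σ ℂ}
    (h : p ∈ (MvPolynomial.map (σ := σ) QB.subtype).range) (m : σ →₀ ℕ) :
    IsAlgebraic ℚ (p.coeff m) := by
  obtain ⟨q, rfl⟩ := h
  rw [MvPolynomial.coeff_map]
  exact mem_QB.1 (Subtype.mem _)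

theorem X_range {σ : Type} (s : σ) :
    MvPolynomial.X s ∈ (MvPolynomial.map (σ := σ) QB.subtype).range :=
  ⟨MvPolynomial.X s, MvPolynomial.map_X _ _⟩

theorem C_range {σ : Type} {c : ℂ} (hc : IsAlgebraic ℚ c) :
    (MvPolynomial.C c : MvPolynomial σ ℂ) ∈ (MvPolynomial.map (σ := σ) QB.subtype).range :=
  ⟨MvPolynomial.C ⟨c, mem_QB.2 hc⟩, MvPolynomial.map_C _ _⟩

theorem entry_inr (t : ℂ) (x : Fin m → ℂ) (v : Fin m → Fin n → ℂ) (a : Fin m) (i j : Fin n) :
    polyMatrix t x v (Sum.inr i, a) (Sum.inr j, a) = if i ≤ j then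
      t ^ ((i : ℕ) + 1) * x a ^ ((j : ℕ) - i) / (((j : ℕ) - i)! : ℂ) else 0 := by
  unfold polyMatrix
  rw [blockDiagonal_apply, if_pos rfl]
  rfl

theorem entry_zero (t : ℂ) (x : Fin m → ℂ) (v : Fin m → Fin (n + 1) → ℂ) (a : Fin m) :
    polyMatrix t x v (Sum.inr 0, a) (Sum.inr 0, a) = t := by
  rw [entry_inr, if_pos le_rfl]
  simp

theorem isAlgebraicSubgroup_motivicGroup :
    IsAlgebraicSubgroup (motivicGroup (m + 1) (n + 1)) := by
  refine ⟨{p | (∀ m, IsAlgebraic ℚ (p.coeff m)) ∧ ∀ g ∈ motivicGroup (m + 1) (n + 1),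
    MvPolynomial.eval (fun b => (g : Matrix (Idx (m + 1) (n + 1)) (Idx (m + 1) (n + 1)) ℂ) b.1 b.2)
      p = 0}, fun p hp => hp.1, fun g => ⟨fun hg p hp => hp.2 g hg, fun h => ?_⟩⟩
  have h0 := isAlgebraic_zero (R := ℚ) (A := ℂ)
  set G : Matrix (Idx (m + 1) (n + 1)) (Idx (m + 1) (n + 1)) ℂ :=
    (g : Matrix (Idx (m + 1) (n + 1)) (Idx (m + 1) (n + 1)) ℂ) with hG
  have h1 : ∀ i j, ∀ c : ℂ, IsAlgebraic ℚ c → (∀ (t : ℂ) (x : Fin (m + 1) → ℂ)
      (v : Fin (m + 1) → Fin (n + 1) → ℂ), polyMatrix t x v i j = c) → G i j = c := by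
    intro i j c hc hb
    have h2 := h (MvPolynomial.X (i, j) - MvPolynomial.C c)
      ⟨coeff_alg (sub_mem (X_range _) (C_range hc)), by
        rintro g' ⟨t, x, v, _, h4⟩
        rw [map_sub, MvPolynomial.eval_X, MvPolynomial.eval_C, h4, hb, sub_self]⟩
    rw [map_sub, MvPolynomial.eval_X, MvPolynomial.eval_C] at h2
    exact sub_eq_zero.1 h2
  -- the diagonal entries
  have h2 : ∀ a : Fin (m + 1), G (Sum.inr 0, a) (Sum.inr 0, a) = G (Sum.inr 0, 0) (Sum.inr 0, 0) := by
    intro a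
    have h2 := h (MvPolynomial.X ((Sum.inr 0, a), (Sum.inr 0, a)) -
      MvPolynomial.X ((Sum.inr 0, 0), (Sum.inr 0, 0)))
      ⟨coeff_alg (sub_mem (X_range _) (X_range _)), by
        rintro g' ⟨t, x, v, _, h4⟩
        rw [map_sub, MvPolynomial.eval_X, MvPolynomial.eval_X, h4, entry_zero, entry_zero,
          sub_self]⟩
    rw [map_sub, MvPolynomial.eval_X, MvPolynomial.eval_X] at h2
    exact sub_eq_zero.1 h2
  set t : ℂ := G (Sum.inr 0, 0) (Sum.inr 0, 0) with ht
  -- the other entries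
  set i1 : Fin (n + 1) := ⟨min 1 n, by omega⟩ with hi1
  have h3 : ∀ (a : Fin (m + 1)) (i j : Fin (n + 1)), i ≤ j →
      G (Sum.inr i, a) (Sum.inr j, a) * t ^ ((j : ℕ) - i) * (((j : ℕ) - i)! : ℂ) =
        t ^ ((i : ℕ) + 1) * G (Sum.inr 0, a) (Sum.inr i1, a) ^ ((j : ℕ) - i) := by
    intro a i j hij
    have h3 := h (MvPolynomial.X ((Sum.inr i, a), (Sum.inr j, a)) *
      MvPolynomial.X ((Sum.inr 0, 0), (Sum.inr 0, 0)) ^ ((j : ℕ) - i) *
      MvPolynomial.C (((j : ℕ) - i)! : ℂ) -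
      MvPolynomial.X ((Sum.inr 0, 0), (Sum.inr 0, 0)) ^ ((i : ℕ) + 1) *
      MvPolynomial.X ((Sum.inr 0, a), (Sum.inr i1, a)) ^ ((j : ℕ) - i))
      ⟨coeff_alg (sub_mem (mul_mem (mul_mem (X_range _) (pow_mem (X_range _) _))
        (C_range (isAlgebraic_natCast _))) (mul_mem (pow_mem (X_range _) _)
          (pow_mem (X_range _) _))), by
        rintro g' ⟨s, x, v, _, h4⟩
        simp only [map_sub, map_mul, map_pow, MvPolynomial.eval_X, MvPolynomial.eval_C]
        rw [h4, entry_zero, entry_inr, if_pos hij, entry_inr, if_pos (Fin.zero_le _)]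
        have f : (((j : ℕ) - i)! : ℂ) ≠ 0 := by exact_mod_cast Nat.factorial_ne_zero _
        rcases Nat.eq_zero_or_pos ((j : ℕ) - i) with hd | hd
        · rw [hd]
          simp
        · have hn : 1 ≤ n := by
            have := j.2
            omega
          have hv : (i1 : ℕ) = 1 := by
            change min 1 n = 1
            omega
          rw [hv]
          simp only [Fin.val_zero, Nat.sub_zero, Nat.factorial_one, Nat.cast_one, div_one, zero_add,
            pow_one]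
          rw [mul_pow]
          field_simp
          ring⟩
    simp only [map_sub, map_mul, map_pow, MvPolynomial.eval_X, MvPolynomial.eval_C] at h3
    exact sub_eq_zero.1 h3
  have hdiag : ∀ (a b : Fin (m + 1)) (i j : Unit ⊕ Fin (n + 1)), a ≠ b → G (i, a) (j, b) = 0 := by
    intro a b i j hab
    refine h1 _ _ 0 h0 fun t x v => ?_
    unfold polyMatrix
    rw [blockDiagonal_apply, if_neg hab]
  have hcol : ∀ (a : Fin (m + 1)) (i : Fin (n + 1)), G (Sum.inr i, a) (Sum.inl (), a) = 0 := by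
    intro a i
    refine h1 _ _ 0 h0 fun t x v => ?_
    unfold polyMatrix
    rw [blockDiagonal_apply, if_pos rfl]
    rfl
  have hone : ∀ (a : Fin (m + 1)), G (Sum.inl (), a) (Sum.inl (), a) = 1 := by
    intro a
    refine h1 _ _ 1 isAlgebraic_one fun t x v => ?_
    unfold polyMatrix
    rw [blockDiagonal_apply, if_pos rfl]
    rfl
  have hlow : ∀ (a : Fin (m + 1)) (i j : Fin (n + 1)), ¬ i ≤ j →
      G (Sum.inr i, a) (Sum.inr j, a) = 0 := by
    intro a i j hij
    refine h1 _ _ 0 h0 fun t x v => ?_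
    rw [entry_inr, if_neg hij]
  have ht0 : t ≠ 0 := by
    intro ht0
    have h4 : G.det = 0 := by
      rw [← Matrix.exists_mulVec_eq_zero_iff]
      refine ⟨Pi.single (Sum.inr 0, 0) 1 - G (Sum.inl (), 0) (Sum.inr 0, 0) •
        Pi.single (Sum.inl (), 0) 1, ?_, ?_⟩
      · intro h5
        have h6 := congrFun h5 (Sum.inr 0, 0)
        simp at h6
      · rw [Matrix.mulVec_sub, Matrix.mulVec_smul, Matrix.mulVec_single_one,
          Matrix.mulVec_single_one]
        funext ⟨i, a⟩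
        change G (i, a) (Sum.inr 0, 0) - G (Sum.inl (), 0) (Sum.inr 0, 0) * G (i, a) (Sum.inl (), 0)
          = 0
        by_cases ha : a = 0
        · subst ha
          rcases i with i | i
          · rw [hone]
            ring
          · rw [hcol, mul_zero, sub_zero]
            by_cases hi : i = 0
            · subst hi
              exact ht0
            · exact hlow 0 i 0 fun h => hi (Fin.le_zero_iff.1 h)
        · rw [hdiag _ _ _ _ ha, hdiag _ _ _ _ ha, mul_zero, sub_zero]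
    have h5 := (Matrix.isUnit_iff_isUnit_det _).1 g.isUnit
    rw [← hG, h4] at h5
    exact not_isUnit_zero h5
  refine ⟨t, fun a => G (Sum.inr 0, a) (Sum.inr i1, a) / t,
    fun a j => G (Sum.inl (), a) (Sum.inr j, a), ht0, ?_⟩
  rw [← hG]
  ext ⟨i, a⟩ ⟨j, b⟩
  by_cases hab : a = b
  · subst hab
    rcases i with i | i <;> rcases j with j | j
    · rw [hone]
      unfold polyMatrix
      rw [blockDiagonal_apply, if_pos rfl]
      rfl
    · unfold polyMatrix
      rw [blockDiagonal_apply, if_pos rfl]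
      rfl
    · rw [hcol]
      unfold polyMatrix
      rw [blockDiagonal_apply, if_pos rfl]
      rfl
    · rw [entry_inr]
      by_cases hij : i ≤ j
      · rw [if_pos hij, eq_div_iff (by exact_mod_cast Nat.factorial_ne_zero _), div_pow]
        have h4 := h3 a i j hij
        have h5 : t ^ ((j : ℕ) - i) ≠ 0 := pow_ne_zero _ ht0
        rw [mul_div_assoc', eq_div_iff h5, ← h4]
        ring
      · rw [if_neg hij, hlow a i j hij]
  · rw [hdiag _ _ _ _ hab]
    unfold polyMatrix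
    rw [blockDiagonal_apply, if_neg hab]

theorem hasPoint_motivicGroup (x : Fin m → ℂ) (l : Fin m → Fin n → ℂ) :
    HasPoint (polyMatrix (2 * Real.pi * Complex.I) x l) (motivicGroup m n) := by
  refine ⟨1, fun i j => ?_, ?_⟩
  · rw [Matrix.one_apply]
    split_ifs
    · exact isAlgebraic_one
    · exact isAlgebraic_zero
  · obtain ⟨x', v', h1⟩ := polyMatrix_inv (n := n) Complex.two_pi_I_ne_zero x l
    rw [Matrix.mul_one]
    exact ⟨⟨_, _, h1, mul_eq_one_comm.1 h1⟩, ⟨_, _, _, Complex.two_pi_I_ne_zero, rfl⟩, rfl⟩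

theorem lin_indep (z x y : Fin m → ℂ) (hx : ∀ a, Complex.exp (x a) = z a)
    (hy : ∀ a, Complex.exp (-y a) = 1 - z a)
    (hz : ∀ p q : Fin m → ℤ, ∏ a, z a ^ p a * (1 - z a) ^ q a = 1 → p = 0 ∧ q = 0) :
    LinearIndependent ℚ (Sum.elim ![2 * Real.pi * Complex.I] (Sum.elim x y)) := by
  rw [← LinearIndependent.iff_fractionRing (R := ℤ) (K := ℚ), Fintype.linearIndependent_iff]
  intro c hc
  rw [Fintype.sum_sum_type, Fintype.sum_sum_type, Fin.sum_univ_one] at hc
  simp only [Sum.elim_inl, Sum.elim_inr, Matrix.cons_val_zero, zsmul_eq_mul] at hc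
  have h1 : ∏ a, z a ^ c (Sum.inr (Sum.inl a)) * (1 - z a) ^ (-c (Sum.inr (Sum.inr a))) = 1 := by
    have h2 := congrArg Complex.exp hc
    rw [Complex.exp_zero, Complex.exp_add, Complex.exp_int_mul, Complex.exp_two_pi_mul_I,
      _root_.one_zpow,
      one_mul, Complex.exp_add, Complex.exp_sum, Complex.exp_sum, ← Finset.prod_mul_distrib] at h2
    refine (Finset.prod_congr rfl fun a _ => ?_).trans h2
    rw [Complex.exp_int_mul, hx, ← hy, ← Complex.exp_int_mul]
    congr 2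
    push_cast
    ring
  obtain ⟨h2, h3⟩ := hz _ _ h1
  have h4 : ∀ a, c (Sum.inr (Sum.inl a)) = 0 := fun a => congrFun h2 a
  have h5 : ∀ a, c (Sum.inr (Sum.inr a)) = 0 := fun a => neg_eq_zero.1 (congrFun h3 a)
  simp only [h4, h5, Int.cast_zero, zero_mul, Finset.sum_const_zero, add_zero, mul_eq_zero,
    Int.cast_eq_zero] at hc
  have h6 := hc.resolve_right (by simp)
  rintro (i | i | i)
  · fin_cases i
    exact h6
  · exact h4 i
  · exact h5 i

theorem le_of_hasPoint (z x : Fin (m + 1) → ℂ) (l : Fin (m + 1) → Fin (n + 1) → ℂ)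
    (hz : ∀ a, IsAlgebraic ℚ (z a))
    (hind : ∀ p q : Fin (m + 1) → ℤ, ∏ a, z a ^ p a * (1 - z a) ^ q a = 1 → p = 0 ∧ q = 0)
    (hx : ∀ a, Complex.exp (x a) = z a) (hl : ∀ a, Complex.exp (-l a 0) = 1 - z a)
    (H : Subgroup (GL (Idx (m + 1) (n + 1)) ℂ)) (hH : IsAlgebraicSubgroup H)
    (hP : HasPoint (polyMatrix (2 * Real.pi * Complex.I) x l) H) :
    motivicGroup (m + 1) (n + 1) ≤ H := by
  classical
  obtain ⟨A, hA, g₀, hg₀, hg₀A⟩ := hP
  have hAG : AlgGrp QB (setOf' (Equiv.refl (Idx (m + 1) (n + 1))) H) := by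
    refine algGrp_setOf' _ ?_
    obtain ⟨I, h4, h5⟩ := hH
    exact ⟨I, fun p hp m => mem_QB.2 (h4 p hp m), h5⟩
  have hdetA : A.det ≠ 0 := by
    intro h
    have h4 := (Matrix.isUnit_iff_isUnit_det _).1 g₀.isUnit
    rw [hg₀A, det_mul, h, mul_zero] at h4
    exact not_isUnit_zero h4
  have hAA : A * A⁻¹ = 1 := Matrix.mul_nonsing_inv _ (isUnit_iff_ne_zero.2 hdetA)
  have hI : IndepQ QB (2 * Real.pi * Complex.I) x (fun a => l a 0) := by
    intro α hα y hy h
    set v : Fin 1 ⊕ (Fin (m + 1) ⊕ Fin (m + 1)) → ℂ :=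
      Sum.elim ![2 * Real.pi * Complex.I] (Sum.elim x fun a => l a 0) with hv
    have h4 := Pool.Agent.H297R2.baker_inhom v (by
      rintro (i | i | i)
      · have : v (Sum.inl i) = 2 * Real.pi * Complex.I := by
          rw [hv, Sum.elim_inl]
          fin_cases i
          rfl
        rw [this, Complex.exp_two_pi_mul_I]
        exact isAlgebraic_one
      · change IsAlgebraic ℚ (Complex.exp (x i))
        rw [hx]
        exact hz i
      · change IsAlgebraic ℚ (Complex.exp (l i 0))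
        have h5 : Complex.exp (l i 0) = (1 - z i)⁻¹ := by
          rw [← hl, Complex.exp_neg, inv_inv]
        rw [h5]
        exact (isAlgebraic_one.sub (hz i)).inv) (lin_indep z x _ hx hl hind)
      (-(α * (2 * Real.pi * Complex.I) + y ⬝ᵥ Sum.elim x fun a => l a 0)) (mem_QB.1 h).neg
      (Sum.elim (fun _ => α) y) (by
      rintro (i | j)
      · exact mem_QB.1 hα
      · exact mem_QB.1 (hy j)) (by
      rw [Fintype.sum_sum_type]
      simp only [hv, Sum.elim_inl, Sum.elim_inr, Fin.sum_univ_one, dotProduct,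
        Matrix.cons_val_zero]
      ring)
    exact ⟨h4.2 (Sum.inl 0), funext fun j => h4.2 (Sum.inr j)⟩
  rintro g ⟨t, x', v', ht, h5⟩
  have hmain := poly_main (K := QB) (H := setOf' (Equiv.refl (Idx (m + 1) (n + 1))) H) (A := A)
    (A' := A⁻¹) (τ := 2 * Real.pi * Complex.I) (x := x) (v := l) hAG (fun x => mem_QB.symm)
    Complex.two_pi_I_ne_zero hI hAA (fun i j => inv_entries (fun i j => mem_QB.2 (hA i j)) _ _)
    (by
      rw [← polyMatrix_eq, ← hg₀A]
      exact ⟨g₀, hg₀, rfl⟩) ht x' v'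
  obtain ⟨g', hg', h6⟩ := hmain
  rw [← polyMatrix_eq, ← h5] at h6
  have h7 : g' = g := Units.ext h6
  rw [← h7]
  exact hg'

end aux

/-- **Theorem.** Let `z 0, …, z m` be algebraic numbers such that the numbers `z a`, `1 - z a` are
multiplicatively independent. Let `x a` be a logarithm of `z a` and `-l a 0` a logarithm of
`1 - z a`, and let `l a j`, `j ≥ 1`, be arbitrary complex numbers (for the polylogarithm motives:
values of `Li_(j+1)` at `z a`). Then the motivic Galois group is the smallest algebraic subgroup `H`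
of `GL_N`, defined over the algebraic numbers, such that the comparison isomorphism belongs to a
torsor of `H` defined over the algebraic numbers. -/
theorem result {m n : ℕ} (z x : Fin (m + 1) → ℂ) (l : Fin (m + 1) → Fin (n + 1) → ℂ)
    (hz : ∀ a, IsAlgebraic ℚ (z a))
    (hind : ∀ p q : Fin (m + 1) → ℤ, ∏ a, z a ^ p a * (1 - z a) ^ q a = 1 → p = 0 ∧ q = 0)
    (hx : ∀ a, Complex.exp (x a) = z a) (hl : ∀ a, Complex.exp (-l a 0) = 1 - z a) :
    IsLeast {H : Subgroup (GL (Idx (m + 1) (n + 1)) ℂ) | IsAlgebraicSubgroup H ∧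
      HasPoint (polyMatrix (2 * Real.pi * Complex.I) x l) H} (motivicGroup (m + 1) (n + 1)) :=
  ⟨⟨isAlgebraicSubgroup_motivicGroup, hasPoint_motivicGroup x l⟩,
    fun H hH => le_of_hasPoint z x l hz hind hx hl H hH.1 hH.2⟩

end Pool.Agent.Results.MP_5d33ca_ag.PolylogarithmMotives
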