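import Mathlib
import Pool.Agent.TH119.MX.Third

/-!
# The period torsor of the 1-motives `[ℤ^r → G]`, `G` an extension of an elliptic curve by `𝔾_m^s`

`E = ℂ/Λ` is an elliptic curve with algebraic invariants and without complex multiplication. The
extension `G` is given by algebraic points of the dual curve `E`, the images of `v k`; the
homomorphism `ℤ^r → G` is given by algebraic points of `G` which lie above the images of `u j`.

The coordinates on the Lie algebra of `G` are `z` and `t k`; the function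
`exp (t k) / f (z, v k)`, `f (z, v) = σ(z + v) / (σ(z) σ(v)) · exp (-ζ(v) z)`, is a rational
function on `G`. The de Rham cohomology of `G` is generated by `dz`, `℘(z) dz` and the `dt k`, which
are, up to `dx/x` for rational functions `x`, the differentials of the third kind
`(℘'(z) - ℘'(v)) / (2 (℘(z) - ℘(v))) dz`. So the periods are: for the circle in the factor `k` of
the torus: `t k = 2πi`; for the path `ω_i`: `z = ω_i`, `ζ = η_i`, `t k = η_i v k - ω_i ζ(v k)`; for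
the point number `j`: `z = u j`, `ζ(u j)`, `t k = c j k`, where `exp (c j k) / f (u j, v k)` is
algebraic. The theorem holds for arbitrary `c j k`.
-/

namespace Pool.Agent.Results.MP_5d33ca_ag.ThirdKindMotives

open Matrix

/-- The Weierstrass `ζ` function of the lattice of `L` (the term of `0` is `1 / z`). -/
noncomputable def zetaFn (L : PeriodPair) (z : ℂ) : ℂ :=
  ∑' l : L.lattice, (1 / (z - l) + 1 / l + z / l ^ 2)

/-- The indices of the bases: the torus, the curve, the points. -/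
abbrev Idx (r s : ℕ) := Fin s ⊕ (Fin 2 ⊕ Fin r)

/-- The block matrix with rows `t, 0, 0` and `b, a, 0` and `c, d, 1`. -/
def blocks {r s : ℕ} (t : ℂ) (b : Matrix (Fin 2) (Fin s) ℂ) (a : Matrix (Fin 2) (Fin 2) ℂ)
    (c : Matrix (Fin r) (Fin s) ℂ) (d : Matrix (Fin r) (Fin 2) ℂ) :
    Matrix (Idx r s) (Idx r s) ℂ :=
  fromBlocks (t • 1) 0 (fromRows b c) (fromBlocks a 0 d 1)

/-- The matrix of the comparison isomorphism: `ω_i`, `η_i = 2 ζ(ω_i / 2)` and
`η_i v_k - ω_i ζ(v_k)` for the closed paths on the curve; `u_j`, `ζ(u_j)` and `c_{jk}` for the paths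
to the points; `2πi` for the closed paths on the torus. -/
noncomputable def periodMatrix (L : PeriodPair) {r s : ℕ} (u : Fin r → ℂ) (v : Fin s → ℂ)
    (c : Matrix (Fin r) (Fin s) ℂ) : Matrix (Idx r s) (Idx r s) ℂ :=
  blocks (2 * Real.pi * Complex.I)
    (Matrix.of fun i k => 2 * zetaFn L (![L.ω₁, L.ω₂] i / 2) * v k -
      ![L.ω₁, L.ω₂] i * zetaFn L (v k))
    !![L.ω₁, 2 * zetaFn L (L.ω₁ / 2); L.ω₂, 2 * zetaFn L (L.ω₂ / 2)]
    c (Matrix.of fun j => ![u j, zetaFn L (u j)])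

theorem blocks_eq {r s : ℕ} (t : ℂ) (b : Matrix (Fin 2) (Fin s) ℂ) (a : Matrix (Fin 2) (Fin 2) ℂ)
    (c : Matrix (Fin r) (Fin s) ℂ) (d : Matrix (Fin r) (Fin 2) ℂ) :
    blocks t b a c d = Pool.Agent.TH119.MX.hm (b, a, c, d, t) 1 := by
  unfold blocks Pool.Agent.TH119.MX.hm
  rw [one_smul]

theorem blocks_mul {r s : ℕ} (t t' : ℂ) (b b' : Matrix (Fin 2) (Fin s) ℂ)
    (a a' : Matrix (Fin 2) (Fin 2) ℂ) (c c' : Matrix (Fin r) (Fin s) ℂ)
    (d d' : Matrix (Fin r) (Fin 2) ℂ) : blocks t b a c d * blocks t' b' a' c' d' =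
      blocks (t * t') (t' • b + a * b') (a * a') (t' • c + d * b' + c') (d * a' + d') := by
  rw [blocks_eq, blocks_eq, blocks_eq, Pool.Agent.TH119.MX.hm_mul, mul_one]
  unfold Pool.Agent.TH119.MX.hp
  simp only [one_smul]

theorem blocks_one {r s : ℕ} : blocks (r := r) (s := s) 1 0 1 0 0 = 1 := by
  rw [blocks_eq]
  exact Pool.Agent.TH119.MX.hm_one

theorem blocks_inv {r s : ℕ} {t : ℂ} (b : Matrix (Fin 2) (Fin s) ℂ)
    {a : Matrix (Fin 2) (Fin 2) ℂ} (c : Matrix (Fin r) (Fin s) ℂ)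
    (d : Matrix (Fin r) (Fin 2) ℂ) (ha : a.det = t) (ht : t ≠ 0) :
    blocks t b a c d * blocks t⁻¹ (-(t⁻¹ • (a⁻¹ * b))) a⁻¹ (t⁻¹ • (d * (a⁻¹ * b) - c))
      (-(d * a⁻¹)) = 1 := by
  have hu : IsUnit a.det := isUnit_iff_ne_zero.2 (by rwa [ha])
  rw [blocks_mul, ← blocks_one, mul_inv_cancel₀ ht, Matrix.mul_nonsing_inv _ hu,
    Matrix.mul_neg, Matrix.mul_smul, ← Matrix.mul_assoc, Matrix.mul_nonsing_inv _ hu,
    Matrix.one_mul, add_neg_cancel, add_neg_cancel]
  congr 1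
  rw [Matrix.mul_neg, Matrix.mul_smul, smul_sub]
  abel

theorem blocks_det {r s : ℕ} (t : ℂ) (b : Matrix (Fin 2) (Fin s) ℂ)
    (a : Matrix (Fin 2) (Fin 2) ℂ) (c : Matrix (Fin r) (Fin s) ℂ)
    (d : Matrix (Fin r) (Fin 2) ℂ) : (blocks t b a c d).det = t ^ s * a.det := by
  unfold blocks
  rw [det_fromBlocks_zero₁₂, det_fromBlocks_zero₁₂, det_one, mul_one, Matrix.det_smul, det_one,
    mul_one, Fintype.card_fin]

theorem blocks_inl {r s : ℕ} (t : ℂ) (b : Matrix (Fin 2) (Fin s) ℂ)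
    (a : Matrix (Fin 2) (Fin 2) ℂ) (c : Matrix (Fin r) (Fin s) ℂ)
    (d : Matrix (Fin r) (Fin 2) ℂ) (i j : Fin s) : blocks t b a c d (Sum.inl i) (Sum.inl j) =
      t * (1 : Matrix (Fin s) (Fin s) ℂ) i j := rfl

/-- The motivic Galois group: the block matrices with `det a = t`. -/
def motivicGroup (r s : ℕ) : Subgroup (GL (Idx r s) ℂ) where
  carrier := {g | ∃ (t : ℂ) (b : Matrix (Fin 2) (Fin s) ℂ) (a : Matrix (Fin 2) (Fin 2) ℂ)
    (c : Matrix (Fin r) (Fin s) ℂ) (d : Matrix (Fin r) (Fin 2) ℂ),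
    a.det = t ∧ (g : Matrix (Idx r s) (Idx r s) ℂ) = blocks t b a c d}
  mul_mem' := by
    rintro g g' ⟨t, b, a, c, d, h1, h2⟩ ⟨t', b', a', c', d', h3, h4⟩
    exact ⟨t * t', t' • b + a * b', a * a', t' • c + d * b' + c', d * a' + d',
      by rw [det_mul, h1, h3], by rw [Units.val_mul, h2, h4, blocks_mul]⟩
  one_mem' := ⟨1, 0, 1, 0, 0, det_one, blocks_one.symm⟩
  inv_mem' := by
    rintro g ⟨t, b, a, c, d, h1, h2⟩
    have ht : t ≠ 0 := by
      rintro rfl
      have h3 := (Matrix.isUnit_iff_isUnit_det _).1 g.isUnit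
      rw [h2, blocks_det, h1, mul_zero] at h3
      exact not_isUnit_zero h3
    refine ⟨t⁻¹, -(t⁻¹ • (a⁻¹ * b)), a⁻¹, t⁻¹ • (d * (a⁻¹ * b) - c), -(d * a⁻¹), ?_, ?_⟩
    · rw [Matrix.det_nonsing_inv, h1, Ring.inverse_eq_inv']
    · rw [Matrix.coe_units_inv, h2]
      exact Matrix.inv_eq_right_inv (blocks_inv b c d h1 ht)

/-- A subgroup of `GL_N(ℂ)` defined by polynomials with algebraic coefficients. -/
def IsAlgebraicSubgroup {N : Type} [Fintype N] [DecidableEq N] (H : Subgroup (GL N ℂ)) : Prop :=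
  ∃ I : Set (MvPolynomial (N × N) ℂ), (∀ p ∈ I, ∀ m, IsAlgebraic ℚ (p.coeff m)) ∧
    ∀ g : GL N ℂ, g ∈ H ↔ ∀ p ∈ I, MvPolynomial.eval (fun b => (g : Matrix N N ℂ) b.1 b.2) p = 0

/-- The matrix `P` belongs to a torsor `H · A⁻¹` of `H` defined over the algebraic numbers. -/
def HasPoint {N : Type} [Fintype N] [DecidableEq N] (P : Matrix N N ℂ) (H : Subgroup (GL N ℂ)) :
    Prop :=
  ∃ A : Matrix N N ℂ, (∀ i j, IsAlgebraic ℚ (A i j)) ∧ ∃ g ∈ H, (g : Matrix N N ℂ) = P * A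

/-! ### Proof -/

section aux

open Pool.Agent.TH119.MX Pool.Agent.W245.EB H667R3

variable {r s : ℕ}

theorem two_zeta (L : PeriodPair) {w : ℂ} (hw : w ∈ L.lattice) (hw2 : w / 2 ∉ L.lattice) :
    2 * zetaFn L (w / 2) = eta L w := by
  change 2 * zeta L (w / 2) = eta L w
  have h1 := zeta_add_coe L (z := -(w / 2)) (fun h => hw2 (by simpa using neg_mem h)) hw
  have h2 : -(w / 2) + w = w / 2 := by ring
  rw [h2, zeta_neg] at h1
  linear_combination h1

theorem pE_eq (L : PeriodPair) :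
    !![L.ω₁, 2 * zetaFn L (L.ω₁ / 2); L.ω₂, 2 * zetaFn L (L.ω₂ / 2)] = pE L := by
  rw [two_zeta L L.ω₁_mem_lattice L.ω₁_div_two_notMem_lattice,
    two_zeta L L.ω₂_mem_lattice L.ω₂_div_two_notMem_lattice]
  rfl

/-- The periods of the curve and of all points. -/
noncomputable def dd (L : PeriodPair) (u : Fin r → ℂ) (v : Fin s → ℂ) :
    Per Unit (fun _ => Fin r ⊕ Fin s) (Fin 0) := perG L (Sum.elim u v) Fin.elim0

theorem period_eq (L : PeriodPair) (u : Fin r → ℂ) (v : Fin s → ℂ)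
    (hu : ∀ j, u j ∉ L.lattice) (hv : ∀ k, v k ∉ L.lattice) (c : Matrix (Fin r) (Fin s) ℂ) :
    periodMatrix L u v c = hm (pH (dd L u v) c) 1 := by
  rw [periodMatrix, blocks_eq, pE_eq]
  congr 1
  refine Prod.ext ?_ (Prod.ext rfl (Prod.ext rfl (Prod.ext ?_ rfl)))
  · change _ = pE L * nn (dd L u v)
    ext i k
    have h1 : nn (dd L u v) 0 k = -zetaFn L (v k) := by
      change (vv (dd L u v) * jj') k 0 = _
      rw [Matrix.mul_apply, Fin.sum_univ_two]
      change v k * 0 + zt L (v k) * (-1) = _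
      rw [zt_of_notMem (hv k)]
      change v k * 0 + zeta L (v k) * (-1) = -zeta L (v k)
      ring
    have h2 : nn (dd L u v) 1 k = v k := by
      change (vv (dd L u v) * jj') k 1 = _
      rw [Matrix.mul_apply, Fin.sum_univ_two]
      change v k * 1 + zt L (v k) * 0 = _
      ring
    rw [Matrix.mul_apply, Fin.sum_univ_two, h1, h2]
    fin_cases i
    · change 2 * zetaFn L (L.ω₁ / 2) * v k - L.ω₁ * zetaFn L (v k) =
        L.ω₁ * -zetaFn L (v k) + eta L L.ω₁ * v k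
      rw [two_zeta L L.ω₁_mem_lattice L.ω₁_div_two_notMem_lattice]
      ring
    · change 2 * zetaFn L (L.ω₂ / 2) * v k - L.ω₂ * zetaFn L (v k) =
        L.ω₂ * -zetaFn L (v k) + eta L L.ω₂ * v k
      rw [two_zeta L L.ω₂_mem_lattice L.ω₂_div_two_notMem_lattice]
      ring
  · change (Matrix.of fun j => ![u j, zetaFn L (u j)]) = Matrix.of fun j => ![u j, zt L (u j)]
    congr 1
    funext j
    rw [zt_of_notMem (hu j)]
    rfl

/-- Polynomials with algebraic coefficients. -/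
theorem coeff_alg {σ : Type} {p : MvPolynomial σ ℂ}
    (h : p ∈ (MvPolynomial.map (σ := σ) QB.subtype).range) (m : σ →₀ ℕ) :
    IsAlgebraic ℚ (p.coeff m) := by
  obtain ⟨q, rfl⟩ := h
  rw [MvPolynomial.coeff_map]
  exact mem_QB.1 (Subtype.mem _)

theorem X_range {σ : Type} (s : σ) :
    MvPolynomial.X s ∈ (MvPolynomial.map (σ := σ) QB.subtype).range :=
  ⟨MvPolynomial.X s, MvPolynomial.map_X _ _⟩

theorem C_range {σ : Type} {c : ℂ} (hc : IsAlgebraic ℚ c) :
    (MvPolynomial.C c : MvPolynomial σ ℂ) ∈ (MvPolynomial.map (σ := σ) QB.subtype).range :=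
  ⟨MvPolynomial.C ⟨c, mem_QB.2 hc⟩, MvPolynomial.map_C _ _⟩

theorem isAlgebraicSubgroup_motivicGroup : IsAlgebraicSubgroup (motivicGroup r s) := by
  refine ⟨{p | (∀ m, IsAlgebraic ℚ (p.coeff m)) ∧ ∀ g ∈ motivicGroup r s,
    MvPolynomial.eval (fun b => (g : Matrix (Idx r s) (Idx r s) ℂ) b.1 b.2) p = 0},
    fun p hp => hp.1, fun g => ⟨fun hg p hp => hp.2 g hg, fun h => ?_⟩⟩
  have h0 := isAlgebraic_zero (R := ℚ) (A := ℂ)
  have h1 : ∀ i j, ∀ c : ℂ, IsAlgebraic ℚ c → (∀ (t : ℂ) (b : Matrix (Fin 2) (Fin s) ℂ)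
      (a : Matrix (Fin 2) (Fin 2) ℂ) (c' : Matrix (Fin r) (Fin s) ℂ)
      (d : Matrix (Fin r) (Fin 2) ℂ), blocks t b a c' d i j = c) →
      (g : Matrix (Idx r s) (Idx r s) ℂ) i j = c := by
    intro i j c hc hb
    have h2 := h (MvPolynomial.X (i, j) - MvPolynomial.C c)
      ⟨coeff_alg (sub_mem (X_range _) (C_range hc)), by
        rintro g' ⟨t, b, a, c', d, _, h4⟩
        rw [map_sub, MvPolynomial.eval_X, MvPolynomial.eval_C, h4, hb, sub_self]⟩
    rw [map_sub, MvPolynomial.eval_X, MvPolynomial.eval_C] at h2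
    exact sub_eq_zero.1 h2
  have h2 : ∀ k : Fin s, (g : Matrix (Idx r s) (Idx r s) ℂ) (Sum.inl k) (Sum.inl k) =
      (g : Matrix (Idx r s) (Idx r s) ℂ) (Sum.inr (Sum.inl 0)) (Sum.inr (Sum.inl 0)) *
      (g : Matrix (Idx r s) (Idx r s) ℂ) (Sum.inr (Sum.inl 1)) (Sum.inr (Sum.inl 1)) -
      (g : Matrix (Idx r s) (Idx r s) ℂ) (Sum.inr (Sum.inl 0)) (Sum.inr (Sum.inl 1)) *
      (g : Matrix (Idx r s) (Idx r s) ℂ) (Sum.inr (Sum.inl 1)) (Sum.inr (Sum.inl 0)) := by
    intro k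
    have h2 := h (MvPolynomial.X (Sum.inr (Sum.inl 0), Sum.inr (Sum.inl 0)) *
      MvPolynomial.X (Sum.inr (Sum.inl 1), Sum.inr (Sum.inl 1)) -
      MvPolynomial.X (Sum.inr (Sum.inl 0), Sum.inr (Sum.inl 1)) *
      MvPolynomial.X (Sum.inr (Sum.inl 1), Sum.inr (Sum.inl 0)) -
      MvPolynomial.X (Sum.inl k, Sum.inl k))
      ⟨coeff_alg (sub_mem (sub_mem (mul_mem (X_range _) (X_range _))
        (mul_mem (X_range _) (X_range _))) (X_range _)), by
        rintro g' ⟨t, b, a, c', d, h3, h4⟩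
        simp only [map_sub, map_mul, MvPolynomial.eval_X]
        rw [h4]
        rw [Matrix.det_fin_two] at h3
        have h5 : blocks t b a c' d (Sum.inl k) (Sum.inl k) = t := by
          rw [blocks_inl, Matrix.one_apply_eq, mul_one]
        rw [h5]
        exact sub_eq_zero.2 h3⟩
    simp only [map_sub, map_mul, MvPolynomial.eval_X] at h2
    exact (sub_eq_zero.1 h2).symm
  refine ⟨_, Matrix.of fun i k => (g : Matrix (Idx r s) (Idx r s) ℂ) (Sum.inr (Sum.inl i))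
    (Sum.inl k), Matrix.of fun i j => (g : Matrix (Idx r s) (Idx r s) ℂ) (Sum.inr (Sum.inl i))
    (Sum.inr (Sum.inl j)), Matrix.of fun i k => (g : Matrix (Idx r s) (Idx r s) ℂ)
    (Sum.inr (Sum.inr i)) (Sum.inl k), Matrix.of fun i j => (g : Matrix (Idx r s) (Idx r s) ℂ)
    (Sum.inr (Sum.inr i)) (Sum.inr (Sum.inl j)), rfl, ?_⟩
  ext i j
  rcases i with i | i | i <;> rcases j with j | j | j
  · by_cases hij : i = j
    · subst hij
      rw [h2 i, blocks_inl, Matrix.one_apply_eq, mul_one, Matrix.det_fin_two]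
      rfl
    · rw [h1 (Sum.inl i) (Sum.inl j) 0 h0 fun t _ _ _ _ => by
        rw [blocks_inl, Matrix.one_apply_ne hij, mul_zero], blocks_inl, Matrix.one_apply_ne hij,
        mul_zero]
  · exact h1 _ _ 0 h0 fun _ _ _ _ _ => rfl
  · exact h1 _ _ 0 h0 fun _ _ _ _ _ => rfl
  · rfl
  · rfl
  · exact h1 _ _ 0 h0 fun _ _ _ _ _ => rfl
  · rfl
  · rfl
  · refine h1 _ _ ((1 : Matrix (Fin r) (Fin r) ℂ) i j) ?_ fun _ _ _ _ _ => rfl
    rw [Matrix.one_apply]
    split_ifs
    · exact isAlgebraic_one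
    · exact h0

/-- The relation of Legendre: the comparison isomorphism belongs to the motivic torsor. -/
theorem hasPoint_motivicGroup (L : PeriodPair) (u : Fin r → ℂ) (v : Fin s → ℂ)
    (c : Matrix (Fin r) (Fin s) ℂ) : HasPoint (periodMatrix L u v c) (motivicGroup r s) := by
  obtain ⟨m, hm⟩ := legendre_int L
  have hpi : (2 * Real.pi * Complex.I : ℂ) ≠ 0 := Complex.two_pi_I_ne_zero
  have hm0 : (m : ℂ) ≠ 0 := by
    intro h
    rw [h, zero_mul] at hm
    exact pE_det_ne L hm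
  have h0 := isAlgebraic_zero (R := ℚ) (A := ℂ)
  have h1 := isAlgebraic_one (R := ℚ) (A := ℂ)
  have hmul : periodMatrix L u v c * blocks 1 0 !![1, 0; 0, (m : ℂ)⁻¹] 0 0 =
      blocks (2 * Real.pi * Complex.I)
        (Matrix.of fun i k => 2 * zetaFn L (![L.ω₁, L.ω₂] i / 2) * v k -
          ![L.ω₁, L.ω₂] i * zetaFn L (v k)) (pE L * !![1, 0; 0, (m : ℂ)⁻¹]) c
        ((Matrix.of fun j => ![u j, zetaFn L (u j)]) * !![1, 0; 0, (m : ℂ)⁻¹]) := by
    rw [periodMatrix, blocks_mul, pE_eq]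
    simp only [mul_one, one_smul, Matrix.mul_zero, add_zero]
  have hdet : (pE L * !![1, 0; 0, (m : ℂ)⁻¹]).det = 2 * Real.pi * Complex.I := by
    rw [det_mul, hm, Matrix.det_fin_two_of]
    field_simp
    ring
  refine ⟨blocks 1 0 !![1, 0; 0, (m : ℂ)⁻¹] 0 0, ?_, ?_⟩
  · intro i j
    have hone : ∀ {α : Type} [DecidableEq α] (i j : α), IsAlgebraic ℚ ((1 : Matrix α α ℂ) i j) := by
      intro α _ i j
      rw [Matrix.one_apply]
      split_ifs
      · exact h1
      · exact h0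
    rcases i with i | i | i <;> rcases j with j | j | j
    · change IsAlgebraic ℚ (((1 : ℂ) • (1 : Matrix (Fin s) (Fin s) ℂ)) i j)
      rw [one_smul]
      exact hone i j
    · exact h0
    · exact h0
    · exact h0
    · change IsAlgebraic ℚ ((!![1, 0; 0, (m : ℂ)⁻¹] : Matrix (Fin 2) (Fin 2) ℂ) i j)
      fin_cases i <;> fin_cases j
      · exact h1
      · exact h0
      · exact h0
      · exact (isAlgebraic_intCast m).inv
    · exact h0
    · exact h0
    · exact h0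
    · exact hone i j
  · rw [hmul]
    have h2 := blocks_inv (Matrix.of fun i k => 2 * zetaFn L (![L.ω₁, L.ω₂] i / 2) * v k -
          ![L.ω₁, L.ω₂] i * zetaFn L (v k)) c
        ((Matrix.of fun j => ![u j, zetaFn L (u j)]) * !![1, 0; 0, (m : ℂ)⁻¹]) hdet hpi
    exact ⟨⟨_, _, h2, mul_eq_one_comm.1 h2⟩, ⟨_, _, _, _, _, hdet, rfl⟩, rfl⟩

theorem notMem_of_indep {L : PeriodPair} {Q : Type} [Fintype Q] [DecidableEq Q] {u : Q → ℂ}
    (hui : LinearIndependent ℚ (Sum.elim ![L.ω₁, L.ω₂] u)) (j : Q) : u j ∉ L.lattice := by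
  intro hj
  obtain ⟨x, y, hxy⟩ := PeriodPair.mem_lattice.1 hj
  have h4 := Fintype.linearIndependent_iff.1 hui (Sum.elim ![(x : ℚ), y] (Pi.single j (-1))) (by
    rw [Fintype.sum_sum_type, Fin.sum_univ_two, Finset.sum_eq_single j]
    · simp only [Sum.elim_inl, Sum.elim_inr, Matrix.cons_val_zero, Matrix.cons_val_one,
        Rat.smul_def, Pi.single_eq_same]
      rw [← hxy]
      push_cast
      ring
    · intro k _ hk
      rw [Sum.elim_inr, Pi.single_eq_of_ne hk, zero_smul]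
    · intro hk
      exact absurd (Finset.mem_univ _) hk) (Sum.inr j)
  rw [Sum.elim_inr, Pi.single_eq_same] at h4
  norm_num at h4

theorem le_of_hasPoint (L : PeriodPair) (h2 : IsAlgebraic ℚ L.g₂) (h3 : IsAlgebraic ℚ L.g₃)
    (hcm : ∀ a : ℂ, (∀ w ∈ L.lattice, a * w ∈ L.lattice) → ∃ m : ℤ, a = m)
    (u : Fin r → ℂ) (hu : ∀ j, IsAlgebraic ℚ (L.weierstrassP (u j)))
    (v : Fin s → ℂ) (hv : ∀ k, IsAlgebraic ℚ (L.weierstrassP (v k)))
    (hui : LinearIndependent ℚ (Sum.elim ![L.ω₁, L.ω₂] (Sum.elim u v)))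
    (c : Matrix (Fin r) (Fin s) ℂ)
    (H : Subgroup (GL (Idx r s) ℂ)) (hH : IsAlgebraicSubgroup H)
    (hP : HasPoint (periodMatrix L u v c) H) : motivicGroup r s ≤ H := by
  classical
  obtain ⟨A, hA, g₀, hg₀, hg₀A⟩ := hP
  have hAG : AlgGrp QB (setOf' (Equiv.refl (Idx r s)) H) := by
    refine algGrp_setOf' _ ?_
    obtain ⟨I, h4, h5⟩ := hH
    exact ⟨I, fun p hp m => mem_QB.2 (h4 p hp m), h5⟩
  have hdetA : A.det ≠ 0 := by
    intro h
    have h4 := (Matrix.isUnit_iff_isUnit_det _).1 g₀.isUnit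
    rw [hg₀A, det_mul, h, mul_zero] at h4
    exact not_isUnit_zero h4
  have hAA : A * A⁻¹ = 1 := Matrix.mul_nonsing_inv _ (isUnit_iff_ne_zero.2 hdetA)
  intro g hg
  obtain ⟨t, b, a, c', e, h4, h5⟩ := hg
  have ht : t ≠ 0 := by
    rintro rfl
    have h3 := (Matrix.isUnit_iff_isUnit_det _).1 g.isUnit
    rw [h5, blocks_det, h4, mul_zero] at h3
    exact not_isUnit_zero h3
  obtain ⟨m, hm⟩ := legendre_int L
  have hmQ : (m : ℂ) ∈ QB := mem_QB.2 (isAlgebraic_intCast m)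
  have hi := indep_perG (l := (Fin.elim0 : Fin 0 → ℂ)) h2 h3 hcm (Sum.elim u v) (by
      rintro (j | k)
      · exact Or.inr (hu j)
      · exact Or.inr (hv k)) hui (fun j => j.elim0) (by
      rw [Fintype.linearIndependent_iff]
      intro g hg
      rw [Fintype.sum_sum_type, Fin.sum_univ_one, Finset.univ_eq_empty, Finset.sum_empty,
        add_zero, Sum.elim_inl, Matrix.cons_val_zero, smul_eq_zero] at hg
      rintro (i | i)
      · fin_cases i
        exact hg.resolve_right Complex.two_pi_I_ne_zero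
      · exact i.elim0)
  have hmain := third_main (D := dd L u v) c (n := (m : ℂ)) (F := QB) (K := QB)
    (H := setOf' (Equiv.refl (Idx r s)) H) (A := A) (A' := A⁻¹) hAG le_rfl
    (fun x => mem_QB.symm) hm hmQ hi hAA (fun i j => inv_entries (fun i j => mem_QB.2 (hA i j)) _ _)
    (by
      rw [← period_eq L u v (fun j => notMem_of_indep hui (Sum.inl j))
        (fun k => notMem_of_indep hui (Sum.inr k)), ← hg₀A]
      exact ⟨g₀, hg₀, rfl⟩) (x := (b, a, c', e, t)) h4 ht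
  obtain ⟨g', hg', h6⟩ := hmain
  rw [← blocks_eq, ← h5] at h6
  have h7 : g' = g := Units.ext h6
  rw [← h7]
  exact hg'

end aux

/-- **Theorem.** Let `Λ` be a lattice with algebraic invariants `g₂, g₃` and without complex
multiplication, let `u j` and `v k` be elliptic logarithms of algebraic points, such that
`ω₁, ω₂, u j, v k` are linearly independent over `ℚ`, and let `c j k` be arbitrary complex numbers
(for the 1-motive `[ℤ^r → G]`: values of integrals of the third kind). Then the motivic Galois group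
is the smallest algebraic subgroup `H` of `GL_N`, defined over the algebraic numbers, such that the
comparison isomorphism belongs to a torsor of `H` defined over the algebraic numbers. -/
theorem result (L : PeriodPair) (h2 : IsAlgebraic ℚ L.g₂) (h3 : IsAlgebraic ℚ L.g₃)
    (hcm : ∀ a : ℂ, (∀ w ∈ L.lattice, a * w ∈ L.lattice) → ∃ m : ℤ, a = m) {r s : ℕ}
    (u : Fin r → ℂ) (hu : ∀ j, IsAlgebraic ℚ (L.weierstrassP (u j)))
    (v : Fin s → ℂ) (hv : ∀ k, IsAlgebraic ℚ (L.weierstrassP (v k)))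
    (hui : LinearIndependent ℚ (Sum.elim ![L.ω₁, L.ω₂] (Sum.elim u v)))
    (c : Matrix (Fin r) (Fin s) ℂ) :
    IsLeast {H : Subgroup (GL (Idx r s) ℂ) | IsAlgebraicSubgroup H ∧
      HasPoint (periodMatrix L u v c) H} (motivicGroup r s) :=
  ⟨⟨isAlgebraicSubgroup_motivicGroup, hasPoint_motivicGroup L u v c⟩,
    fun H hH => le_of_hasPoint L h2 h3 hcm u hu v hv hui c H hH.1 hH.2⟩

end Pool.Agent.Results.MP_5d33ca_ag.ThirdKindMotives
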